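import Pool.Agent.H75.Box.Final

/-!
# MP_9d74f4_an: self-affine sets whose box dimension does not exist

For every `d ≥ 3` there is a self-affine set in `ℝ^d` whose lower box dimension is strictly
smaller than its upper box dimension.  The example has 4096 maps `x ↦ A x + t`, all with the same
linear part `A = diag(1/4, 1/16, 1/256, 1/4, ..., 1/4)`, and translations
`(a + u b, 0, c, 0, ...)` (`a, b ∈ {0,..,3}`, `c ∈ {1,..,255}`) and `(0, z, 0, ...)`
(`z ∈ {0,..,15}`), where `u = ∑ 4^(-i!)`.
-/

namespace Pool.Agent.Results.MP_9d74f4_an.NoBoxDimension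

open Pool.Agent.H75.Box

/-- In every dimension `d ≥ 3` there is a self-affine set whose lower box dimension is strictly
smaller than its upper box dimension. -/
theorem result : ∀ d : ℕ, 3 ≤ d → ∃ E : Set (EuclideanSpace ℝ (Fin d)),
    IsSelfAffine d E ∧ lowerBoxDim E < upperBoxDim E :=
  fun d hd => ⟨attr d uu, isSelfAffine_attr d uu, lower_lt_upper d hd⟩

end Pool.Agent.Results.MP_9d74f4_an.NoBoxDimension
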